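import Pool.Agent.H57.BM.Sample

/-!
# The geometric Breuil-Mezard conjecture: polynomial cycles and deep Hodge-Tate weights

`K / ℚ_p` finite with residue field `k` (`q = p ^ f` elements), `d = n + 1`, `S = Hom(K, E)`. We fix an
embedding `ι` of `k` into an algebraically closed field `F` of characteristic `p`; the embedding
`σ ∈ S` induces the residue embedding `x ↦ ι(x) ^ (p ^ κ σ)`, `κ : S → ℤ/f` surjective.
`t : Fˣ → ℂˣ` is an injective homomorphism (Brauer lift).

* `Wt S d`: families of integers `h_{σ,i}`; `Dom h`: a regular tuple of labelled Hodge-Tate weights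
  (`h_{σ,1} > ... > h_{σ,d}` for every `σ`). `Deep C h`: all gaps `h_{σ,i} - h_{σ,i+1}` are `≥ C`.
* `s h`: the Weyl character of highest weight `h - ρ`. `D`: the Serre weights with their Brauer
  characters. `T`: a set of inertial types (for instance only the trivial one), `θ τ` the Brauer
  character of the reduction of the representation attached to `τ`. `mult τ h w` is the
  multiplicity of the Serre weight `w` in the reduction attached to `τ` and `h` (`IsMult`; for
  `θ = 1` this is `n_w(h)` of the crystalline case). `Generates`: the classes of these reductions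
  generate the Grothendieck group (Steinberg, in the crystalline case).
* `Z τ h`: the cycle of the special fibre of the potentially crystalline stack of type `τ` and
  Hodge-Tate weights `h`, in the group `M` of cycles of the reduced stack.
* The identity of the conjecture at `τ, h` for the cycles `z w` is `Z τ h = ∑ w, mult τ h w • z w`.
* `N`: a positive integer divisible by `q - 1, q ^ 2 - 1, ..., q ^ d - 1`.
* `top S n = [K : ℚ_p] d (d - 1) / 2`.
* `rhoS S n`: the weights `n, n - 1, ..., 0` at every embedding.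
* `Sample N c e`: the finite set of the weights `r + N (c ρ' + ν)`, where `0 ≤ r < N`,
  `ρ' = (n + 1, n, ..., 1)` at every embedding, and `ν` is weakly decreasing and nonnegative at
  every embedding, with `∑ σ, ν_{σ,1} ≤ e`.

**Theorem.** (1) The multiplicities of the Serre weights are polynomial of degree at most
`[K : ℚ_p] d (d - 1) / 2` in the weights, as long as these vary by multiples of `N`; the terms of
highest degree depend only on the central character.

(2) If the conjecture holds, the same is true for the cycles `Z τ h`, and they satisfy congruences.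

(3) The conjecture holds for all weights with the cycles `z w` if (and only if) it holds with these
cycles for all weights with gaps `≥ C`, and the cycles are polynomial (of any degree) along
`h + i N ρ`, `i = 0, 1, 2, ...`, for all `h`.

(4) If the cycles satisfy the difference equations (library, `types`), the identities are only
needed for finitely many weights, which can be chosen as deep as one likes.

(5) If one inequality of the identities is known (this is the result of patching), it suffices that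
the identities hold for all weights with gaps `≥ C`, and the one-sided difference inequalities.

(6) For every `c` the weights in the finite set `Sample N (c + 1) [K : ℚ_p] d (d - 1) / 2` have gaps
`> c`, and the conjecture holds with the cycles `z w` if and only if the cycles `Z τ h` are polynomial
of degree at most `[K : ℚ_p] d (d - 1) / 2` modulo `N` and the identities hold for the weights in
this set.

(7) Suppose that the classes of the reductions for the type `τ₀` generate. There are universal
integral combinations of the cycles `Z τ₀ h`, `h` in this set, such that there are cycles `z w` for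
which the conjecture holds if and only if the cycles `Z τ h` are polynomial modulo `N`, and for the
weights in this set they are the sums of these combinations with the multiplicities `mult τ h w` (finitely
many explicit linear relations between the cycles for the weights in this set). Then these
combinations are the cycles `z w`.
-/

set_option autoImplicit false

open Finset

namespace Pool.Agent.Results.MP_4c60d4_nt.DeepWeights

open Pool.Agent.N28.BM Pool.Agent.H57.BM

/-- The iterated difference of `Y` at `h` with the steps `N μ_1, ..., N μ_m` (up to the sign). -/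
def Diff {S : Type} {d : ℕ} {M : Type} [AddCommGroup M] (Y : Wt S d → M) (N : ℕ) {m : ℕ}
    (μ : Fin m → Wt S d) (h : Wt S d) : M :=
  ∑ I : Finset (Fin m), (-1 : ℤ) ^ I.card • Y (h + N • ∑ j ∈ I, μ j)

/-- All the weights which occur in this iterated difference are regular. -/
def Inside {S : Type} {d : ℕ} (N : ℕ) {m : ℕ} (μ : Fin m → Wt S d) (h : Wt S d) : Prop :=
  ∀ I : Finset (Fin m), Dom (h + N • ∑ j ∈ I, μ j)

section Statements

variable {S T W M : Type} [Fintype S] [DecidableEq S] [Fintype W] [AddCommGroup M] {n : ℕ}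

/-- The identity of the conjecture for the type `τ` and the weights `h`, with the cycles `z w`. -/
def IdentityAt (mult : T → Wt S (n + 1) → W → ℕ) (Z : T → Wt S (n + 1) → M) (z : W → M) (τ : T)
    (h : Wt S (n + 1)) : Prop := Z τ h = ∑ w, mult τ h w • z w

/-- The conjecture for the types `τ ∈ T`, with the cycles `z w`. -/
def BM (mult : T → Wt S (n + 1) → W → ℕ) (Z : T → Wt S (n + 1) → M) (z : W → M) : Prop :=
  ∀ τ h, Dom h → IdentityAt mult Z z τ h

/-- The identities for all the weights whose gaps are at least `C`. -/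
def BMDeep (mult : T → Wt S (n + 1) → W → ℕ) (Z : T → Wt S (n + 1) → M) (z : W → M) (C : ℤ) :
    Prop := ∀ τ h, Dom h → Deep C h → IdentityAt mult Z z τ h

/-- `Y` is polynomial of degree at most `[K : ℚ_p] d (d - 1) / 2` in the weights, as long as these
vary by multiples of `N`, and the leading coefficients depend only on the central character. -/
def PolynomialModN (p : ℕ) {f : ℕ} (κ : S → ZMod f) (N : ℕ) (Y : Wt S (n + 1) → M) : Prop :=
  (∀ (μ : Fin (top S n + 1) → Wt S (n + 1)) h, Inside N μ h → Diff Y N μ h = 0) ∧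
    ∀ (μ : Fin (top S n) → Wt S (n + 1)) h h', SameCentral p κ h h' → Inside N μ h →
      Inside N μ h' → Diff Y N μ h = Diff Y N μ h'

/-- `Y` is polynomial along arithmetic progressions of regular weights with steps `N μ`, and
satisfies congruences. -/
def Progressions (N : ℕ) (Y : Wt S (n + 1) → M) : Prop :=
  ∀ h μ, (∀ i : ℕ, Dom (h + (i * N) • μ)) →
    IsPoly (top S n + 1) (fun i => Y (h + (i * N) • μ)) ∧
    ∀ L : ℕ, ∃ y, Y (h + (L * (top S n).factorial * N) • μ) = Y h + L • y

/-- Every `Y τ` is polynomial, of any degree, along `h + i N ρ`, for all regular `h`. -/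
def PolynomialRho (N : ℕ) (Y : T → Wt S (n + 1) → M) : Prop :=
  ∀ τ h, Dom h → ∃ m, IsPoly m (fun i => Y τ (h + (i * N) • rhoS S n))

/-- The identities hold for `h + i N ρ`, `i` large (depending on `h`). -/
def Eventually (N : ℕ) (mult : T → Wt S (n + 1) → W → ℕ) (Z : T → Wt S (n + 1) → M)
    (z : W → M) : Prop :=
  ∀ τ h, Dom h → ∃ i₀ : ℕ, ∀ i, i₀ ≤ i → IdentityAt mult Z z τ (h + (i * N) • rhoS S n)

/-- The identities at the weights `b + i c N ρ`, `b` in the box, `0 < i ≤ [K : ℚ_p] d (d - 1) / 2 + 1`. -/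
def BMFinite (N c : ℕ) (σ₀ : S) (q : ℕ) (mult : T → Wt S (n + 1) → W → ℕ)
    (Z : T → Wt S (n + 1) → M) (z : W → M) : Prop :=
  ∀ τ b, InBox σ₀ q b → ∀ i, 1 ≤ i → i ≤ top S n + 1 →
    IdentityAt mult Z z τ (b + (i * c * N) • rhoS S n)

/-- One-sided difference inequalities along `h + i N ρ`. -/
def OneSided [PartialOrder M] (N : ℕ) (Y : T → Wt S (n + 1) → M) : Prop :=
  ∀ τ h, Dom h → ∑ i ∈ range (top S n + 2),
    ((-1 : ℤ) ^ i * (top S n + 1).choose i) • Y τ (h + (i * N) • rhoS S n) ≤ 0

/-- The `(e + 1)`-fold differences of `Y`, with steps in `N ℤ ^ (S × d)` and through regular weights,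
vanish, for `e = [K : ℚ_p] d (d - 1) / 2`. -/
def Vanishing (N : ℕ) (Y : Wt S (n + 1) → M) : Prop :=
  ∀ (μ : Fin (top S n + 1) → Wt S (n + 1)) h, Inside N μ h → Diff Y N μ h = 0

/-- The identities on a set `A` of weights. -/
def BMOn (A : Set (Wt S (n + 1))) (mult : T → Wt S (n + 1) → W → ℕ)
    (Z : T → Wt S (n + 1) → M) (z : W → M) : Prop := ∀ τ, ∀ h ∈ A, IdentityAt mult Z z τ h

/-- The integral combination of the values of `Y` given by `b`. -/
def comb (b : P S (n + 1)) (Y : Wt S (n + 1) → M) : M :=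
  ∑ h ∈ b.coeff.support, b.coeff h • Y h

/-- The existence of the cycles is equivalent to polynomiality together with the identities in `A`
for the integral combinations given by `b` of the cycles of type `τ₀` with weights in `A`, and then
these combinations are the cycles. -/
def Presentation (A : Set (Wt S (n + 1))) (N : ℕ) (mult : T → Wt S (n + 1) → W → ℕ) (τ₀ : T)
    (b : W → P S (n + 1)) : Prop :=
  (∀ w, ∀ h ∈ (b w).coeff.support, h ∈ A) ∧ ∀ (M : Type) [AddCommGroup M]
    (Z : T → Wt S (n + 1) → M), ((∃ z, BM mult Z z) ↔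
      (∀ τ, Vanishing N (Z τ)) ∧ BMOn A mult Z (fun w => comb (b w) (Z τ₀))) ∧
    ∀ z, BM mult Z z → z = fun w => comb (b w) (Z τ₀)

end Statements

/-- **Polynomial cycles and deep weights.** -/
theorem result {k F : Type} [Field k] [Fintype k] [Field F] [IsAlgClosed F] (ι : k →+* F)
    {p f : ℕ} [Fact p.Prime] [CharP F p] (hk : Fintype.card k = p ^ f) (hf : f ≠ 0)
    {S : Type} [Fintype S] [DecidableEq S] {n : ℕ} (κ : S → ZMod f)
    (hκ : Function.Surjective κ) (t : Fˣ →* ℂˣ) (ht : Function.Injective t)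
    (s : Wt S (n + 1) → P S (n + 1)) (hs : IsWeyl s) (D : SerreWeights k F (n + 1) t)
    {T : Type} (θ : T → GL (Fin (n + 1)) k → ℂ) (mult : T → Wt S (n + 1) → D.W → ℕ)
    (hmult : ∀ τ, IsMult ι (p := p) κ t s D (θ τ) (mult τ))
    (N : ℕ) (hN0 : 0 < N) (hN : ∀ r, 1 ≤ r → r ≤ n + 1 → (p ^ f) ^ r - 1 ∣ N) :
    (∀ τ w, PolynomialModN p κ N (fun h => (mult τ h w : ℤ))) ∧
    (∀ (M : Type) [AddCommGroup M] (Z : T → Wt S (n + 1) → M) (z : D.W → M),
      (BM mult Z z → ∀ τ, PolynomialModN p κ N (Z τ) ∧ Progressions N (Z τ)) ∧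
      (BM mult Z z ↔ Eventually N mult Z z ∧ PolynomialRho N Z) ∧
      (∀ C, BM mult Z z ↔ BMDeep mult Z z C ∧ PolynomialRho N Z) ∧
      ((∀ τ, Alt (Z τ)) → ∀ σ₀, κ σ₀ = 0 → ∀ c,
        (BM mult Z z ↔ (∀ τ, DomEquations κ p (Z τ)) ∧ BMFinite N c σ₀ (p ^ f) mult Z z)) ∧
      ∀ [PartialOrder M] [IsOrderedAddMonoid M],
        (∀ τ h, Dom h → ∑ w, mult τ h w • z w ≤ Z τ h) →
        ∀ C, (BM mult Z z ↔ BMDeep mult Z z C ∧ OneSided N Z)) ∧
    ∀ c : ℕ, (Sample N (c + 1) (top S n) : Set (Wt S (n + 1))).Finite ∧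
      (∀ h ∈ (Sample N (c + 1) (top S n) : Set (Wt S (n + 1))), Dom h ∧ Deep (c + 1) h) ∧
      (∀ (M : Type) [AddCommGroup M] (Z : T → Wt S (n + 1) → M) (z : D.W → M),
        (BM mult Z z ↔ (∀ τ, Vanishing N (Z τ)) ∧
          BMOn (Sample N (c + 1) (top S n)) mult Z z)) ∧
      ∀ τ₀, Generates t D (mult τ₀) →
        ∃ b, Presentation (Sample N (c + 1) (top S n)) N mult τ₀ b := by
  have hone : ∀ (M : Type) [AddCommGroup M] [PartialOrder M] [IsOrderedAddMonoid M]
      (Z : Wt S (n + 1) → M) (τ : T) (z : D.W → M),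
      (∀ h, Dom h → Z h = ∑ w, mult τ h w • z w) → ∀ h, Dom h →
      ∑ i ∈ range (top S n + 2), ((-1 : ℤ) ^ i * (top S n + 1).choose i) •
        Z (h + (i * N) • rhoS S n) = 0 := by
    intro M _ _ _ Z τ z hz h hh
    have h1 := cycle_rel ι hk κ t s hs D hN (θ τ) (mult τ) (hmult τ) Z z hz
      (Nat.lt_succ_self (top S n)) (fun _ => rhoS S n) h (fun I => by
        rw [Finset.sum_const, smul_smul]
        exact dom_rho h hh _)
    have h2 := sum_card (m := top S n + 1) (fun c => (-1 : ℤ) ^ c • Z (h + (c * N) • rhoS S n))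
    rw [← h1]
    refine Eq.trans (Eq.trans (Finset.sum_congr rfl fun c _ => ?_) h2.symm)
      (Finset.sum_congr rfl fun I _ => ?_)
    · rw [mul_comm, mul_smul, natCast_zsmul]
    · rw [Finset.sum_const, smul_smul, mul_comm]
  refine ⟨fun τ w => ⟨fun μ h hI => ?_, fun μ h h' hc hI hI' => ?_⟩, ?_, ?_⟩
  · have := mult_rel ι hk κ t s hs D hN (θ τ) (mult τ) (hmult τ) (Nat.lt_succ_self _) μ h hI w
    simpa only [Diff, smul_eq_mul] using this
  · have := mult_top ι hk κ t ht s hs D hN (θ τ) (mult τ) (hmult τ) μ h h' hc hI hI' w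
    rw [sub_mul, map_sub, LF_diff, LF_diff, sub_eq_zero] at this
    exact this
  · intro M _ Z z
    have hdeep : ∀ C : ℤ, (∀ τ h, Dom h → Deep C h → Z τ h = ∑ w, mult τ h w • z w) →
        ∀ τ h, Dom h → ∃ i₀ : ℕ, ∀ i, i₀ ≤ i → Z τ (h + (i * N) • rhoS S n) =
          ∑ w, mult τ (h + (i * N) • rhoS S n) w • z w := fun C hC τ h hh =>
      ⟨C.toNat, fun i hi => hC τ _ (dom_rho h hh _) (deep_of_large hN0 C h hh i hi)⟩
    have hpoly : (∀ τ h, Dom h → Z τ h = ∑ w, mult τ h w • z w) → ∀ τ h, Dom h →
        ∃ m, IsPoly m (fun i => Z τ (h + (i * N) • rhoS S n)) := fun hz τ h hh =>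
      ⟨_, poly_of_identity ι hk κ t s hs D hN (θ τ) (mult τ) (hmult τ) (Z τ) z (hz τ) h
        (rhoS S n) (fun i => dom_rho h hh _)⟩
    refine ⟨fun hz τ => ⟨⟨fun μ h hI => ?_, fun μ h h' hc hI hI' => ?_⟩, fun h μ hd => ?_⟩,
      ⟨fun hz => ⟨fun τ h hh => ⟨0, fun i _ => hz τ _ (dom_rho h hh _)⟩, hpoly hz⟩,
        fun hz τ h hh => ?_⟩, fun C => ⟨fun hz => ⟨fun τ h hh _ => hz τ h hh, hpoly hz⟩,
          fun hz τ h hh => ?_⟩, ?_, ?_⟩
    · exact cycle_rel ι hk κ t s hs D hN (θ τ) (mult τ) (hmult τ) (Z τ) z (hz τ)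
        (Nat.lt_succ_self _) μ h hI
    · exact cycle_top ι hk κ t ht s hs D hN (θ τ) (mult τ) (hmult τ) (Z τ) z (hz τ) μ h h' hc
        hI hI'
    · have h1 := poly_of_identity ι hk κ t s hs D hN (θ τ) (mult τ) (hmult τ) (Z τ) z (hz τ) h μ hd
      refine ⟨h1, fun L => ?_⟩
      obtain ⟨y, hy⟩ := isPoly_congr _ _ h1 L
      exact ⟨y, by simpa using hy⟩
    · exact criterion ι hk κ t s hs D hN (θ τ) (mult τ) (hmult τ) (Z τ) z h hh (hz.1 τ h hh)
        (hz.2 τ h hh)
    · exact criterion ι hk κ t s hs D hN (θ τ) (mult τ) (hmult τ) (Z τ) z h hh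
        (hdeep C hz.1 τ h hh) (hz.2 τ h hh)
    · intro hZ σ₀ h0 c
      exact finite_deep ι hk hf κ hκ t ht s hs D hN θ mult hmult Z hZ σ₀ h0 z c
    · intro _ _ hlow C
      refine ⟨fun hz => ⟨fun τ h hh _ => hz τ h hh, fun τ h hh => ?_⟩, fun hz τ => ?_⟩
      · exact (hone M (Z τ) τ z (hz τ) h hh).le
      · exact one_sided ι hk κ t s hs D hN hN0 (θ τ) (mult τ) (hmult τ) (Z τ) z (hlow τ) C
          (hz.1 τ) (hz.2 τ)
  · intro c
    have hsam : ∀ h ∈ (Sample N (c + 1) (top S n) : Set (Wt S (n + 1))),
        Dom h ∧ Deep (c + 1) h := by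
      rintro h ⟨r, ν, hr, hν, _, rfl⟩
      have h1 := sample_deep N hN0 c r ν hr hν
      exact ⟨(dom_iff _).mpr (h1.mono (by omega)), h1⟩
    have hiff : ∀ (M : Type) [AddCommGroup M] (Z : T → Wt S (n + 1) → M) (z : D.W → M),
        (BM mult Z z ↔ (∀ τ, Vanishing N (Z τ)) ∧
          BMOn (Sample N (c + 1) (top S n)) mult Z z) := by
      intro M _ Z z
      refine ⟨fun hz => ⟨fun τ μ h hI => ?_, fun τ h hA => hz τ h (hsam h hA).1⟩,
        fun hz τ h hh => ?_⟩
      · exact cycle_rel ι hk κ t s hs D hN (θ τ) (mult τ) (hmult τ) (Z τ) z (hz τ)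
          (Nat.lt_succ_self _) μ h hI
      · exact sample_criterion ι hk κ t s hs D hN hN0 (θ τ) (mult τ) (hmult τ) (Z τ) z c
          (hz.1 τ) (hz.2 τ) h hh
    refine ⟨finite_sample N (c + 1) (top S n), hsam, hiff, fun τ₀ hgen => ?_⟩
    choose b hb1 hb2 using universal_sample ι hk κ t s hs D hN hN0 (θ τ₀) (mult τ₀) (hmult τ₀)
      hgen c
    refine ⟨b, hb1, fun M _ Z => ?_⟩
    have huniq : ∀ z, BM mult Z z → z = fun w => comb (b w) (Z τ₀) := by
      intro z hz
      funext w
      exact eval_comb t D (mult τ₀) (Z τ₀) z w (b w) (hb2 w)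
        (fun h hh => hz τ₀ h (hsam h (hb1 w h hh)).1)
    refine ⟨⟨?_, fun hz => ⟨_, (hiff M Z _).mpr hz⟩⟩, huniq⟩
    rintro ⟨z, hz⟩
    have h1 := (hiff M Z z).mp hz
    rw [huniq z hz] at h1
    exact h1

end Pool.Agent.Results.MP_4c60d4_nt.DeepWeights
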