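import Pool.Agent.H57.BM.Density

/-!
# The geometric Breuil-Mezard conjecture: the main term of the cycles

`K / ℚ_p` finite with residue field `k` (`q = p ^ f` elements), `d = n + 1`, `S = Hom(K, E)`. We fix an
embedding `ι` of `k` into an algebraically closed field `F` of characteristic `p`; the embedding
`σ ∈ S` induces the residue embedding `x ↦ ι(x) ^ (p ^ κ σ)`, `κ : S → ℤ/f` surjective.
`t : Fˣ → ℂˣ` is an injective homomorphism (Brauer lift).

* `Wt S d`: families of integers `h_{σ,i}`; `Dom h`: a regular tuple of labelled Hodge-Tate weights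
  (`h_{σ,1} > ... > h_{σ,d}` for every `σ`). `Deep C h`: all gaps `h_{σ,i} - h_{σ,i+1}` are `≥ C`.
* `s h`: the Weyl character of highest weight `h - ρ`; `dimW s h`: the sum of its coefficients, that
  is, the dimension of the algebraic representation `W_h`. `D`: the Serre weights with their Brauer
  characters. `T`: a set of inertial types (for instance only the trivial one), `θ τ` the Brauer
  character of the reduction of the representation `σ(τ)` attached to `τ`. `mult τ h w` is the
  multiplicity of the Serre weight `w` in the reduction of `W_h ⊗ σ(τ)` (`IsMult`; for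
  `θ = 1` this is `n_w(h)` of the crystalline case).
* `Z τ h`: the cycle of the special fibre of the potentially crystalline stack of type `τ` and
  Hodge-Tate weights `h`, in the group `M` of cycles of the reduced stack.
* The identity of the conjecture at `τ, h` for the cycles `z w` is `Z τ h = ∑ w, mult τ h w • z w`.
* `N`: a positive integer divisible by `q - 1, q ^ 2 - 1, ..., q ^ d - 1`.
* `top S n = [K : ℚ_p] d (d - 1) / 2`, `low S n = [K : ℚ_p] (d - 1) (d - 2) / 2`.
* `IsCentral c θ cen`: the class `∑ w, cen h w [w]` has the Brauer character which at the elements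
  of `GL_d(k)` with only one eigenvalue (this is in `k`) is `c` times the product of the central
  character of `W_h` and of `θ`, and which is `0` at all other elements. If `c = |PGL_d(k)|` this is
  the class of the representation of `GL_d(k)` induced from the restriction to the centre of
  `ω_h ⊗ σ(τ)`, where `ω_h` is the central character of `W_h`. In the
  crystalline case `cen h w` is then `dim P_w` (`P_w` is the projective cover of `w`) if `w` has
  central character `ω_h`, and `0` otherwise.
* `Sample N c m`: a finite set of weights with gaps `≥ c` (see there).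

**Theorem.** (1) Weyl's dimension formula for `dimW s h`.

(2) A class as above exists for `c = ± e! N ^ e`, `e = top S n`: the `e`-fold difference, with
steps `N ρ`, of the multiplicities. For every `c ≠ 0` it depends only on the central character.

(3) `c mult τ h w = dim W_h cen τ h w + ` a function of `h` which is polynomial of degree at most
`[K : ℚ_p] (d - 1) (d - 2) / 2` modulo `N`; so the error has at most the degree of `dim W_h` minus
`[K : ℚ_p] (d - 1)`. In particular the density of the Serre weight `w` in `W_h ⊗ σ(τ)` tends to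
`cen τ h w / c` if `h` goes to infinity along `h + i N μ`, `μ` regular.

(4) If the conjecture holds with the cycles `z w`, the same is true for the cycles `Z τ h`: the main
term is `dim W_h` times the cycle `(1 / c) ∑ w, cen τ h w • z w`. For `d ≤ 2` there is no error
term: `c (Z τ (h + N μ) - Z τ h) = (dim W_{h + N μ} - dim W_h) ∑ w, cen τ h w • z w`.

(5) Conversely, if `M` has no `c`-torsion the conjecture holds with the cycles `z w` if this is true,
and if the identities hold for the finitely many weights in `Sample N (c' + 1) (low S n)`, which can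
be chosen as deep as one likes; for `d ≤ 2` this is one weight in every class modulo `N`.
-/

set_option autoImplicit false

open Finset Filter Topology

namespace Pool.Agent.Results.MP_4c60d4_nt.MainTerm

open Pool.Agent.N28.BM Pool.Agent.H57.BM

/-- The iterated difference of `Y` at `h` with the steps `N μ_1, ..., N μ_m` (up to the sign). -/
def Diff {S : Type} {d : ℕ} {M : Type} [AddCommGroup M] (Y : Wt S d → M) (N : ℕ) {m : ℕ}
    (μ : Fin m → Wt S d) (h : Wt S d) : M :=
  ∑ I : Finset (Fin m), (-1 : ℤ) ^ I.card • Y (h + N • ∑ j ∈ I, μ j)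

/-- All the weights which occur in this iterated difference are regular. -/
def Inside {S : Type} {d : ℕ} (N : ℕ) {m : ℕ} (μ : Fin m → Wt S d) (h : Wt S d) : Prop :=
  ∀ I : Finset (Fin m), Dom (h + N • ∑ j ∈ I, μ j)

section Statements

variable {S T W M : Type} [Fintype S] [DecidableEq S] [Fintype W] [AddCommGroup M] {n : ℕ}

/-- `Y` is polynomial of degree at most `m` in the weights, as long as these vary by multiples of
`N`: the `(m + 1)`-fold differences through regular weights vanish. -/
def DegreeLE (N m : ℕ) (Y : Wt S (n + 1) → M) : Prop :=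
  ∀ (μ : Fin (m + 1) → Wt S (n + 1)) h, Inside N μ h → Diff Y N μ h = 0

/-- The identity of the conjecture for the type `τ` and the weights `h`, with the cycles `z w`. -/
def IdentityAt (mult : T → Wt S (n + 1) → W → ℕ) (Z : T → Wt S (n + 1) → M) (z : W → M) (τ : T)
    (h : Wt S (n + 1)) : Prop := Z τ h = ∑ w, mult τ h w • z w

/-- The conjecture for the types `τ ∈ T`, with the cycles `z w`. -/
def BM (mult : T → Wt S (n + 1) → W → ℕ) (Z : T → Wt S (n + 1) → M) (z : W → M) : Prop :=
  ∀ τ h, Dom h → IdentityAt mult Z z τ h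

/-- The identities on a set `A` of weights. -/
def BMOn (A : Set (Wt S (n + 1))) (mult : T → Wt S (n + 1) → W → ℕ)
    (Z : T → Wt S (n + 1) → M) (z : W → M) : Prop := ∀ τ, ∀ h ∈ A, IdentityAt mult Z z τ h

/-- `c Z τ h = dim W_h ∑ w, cen τ h w • z w + ` a function of degree at most `low S n`. -/
def CycleTerm (s : Wt S (n + 1) → P S (n + 1)) (N : ℕ) (c : ℤ) (cen : T → Wt S (n + 1) → W → ℤ)
    (Z : T → Wt S (n + 1) → M) (z : W → M) : Prop :=
  ∀ τ, DegreeLE N (low S n) (fun h => c • Z τ h - dimW s h • ∑ w, cen τ h w • z w)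

/-- The exact formula for `d ≤ 2`. -/
def Exact (s : Wt S (n + 1) → P S (n + 1)) (N : ℕ) (c : ℤ) (cen : T → Wt S (n + 1) → W → ℤ)
    (Z : T → Wt S (n + 1) → M) (z : W → M) : Prop :=
  ∀ τ h μ, Dom h → Dom (h + N • μ) → c • (Z τ (h + N • μ) - Z τ h) =
    (dimW s (h + N • μ) - dimW s h) • ∑ w, cen τ h w • z w

/-- `Y (h + i N μ) / dim W_{h + i N μ}` tends to `L τ h`, for all regular `h` and `μ`. -/
def HasDensity (s : Wt S (n + 1) → P S (n + 1)) (N : ℕ) (Y : Wt S (n + 1) → ℝ)
    (L : Wt S (n + 1) → ℝ) : Prop :=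
  ∀ h μ, Dom h → Dom μ → Tendsto
    (fun i : ℕ => Y (h + (i * N) • μ) / (dimW s (h + (i * N) • μ) : ℝ)) atTop (𝓝 (L h))

end Statements

/-- **The main term of the multiplicities and of the cycles.** -/
theorem result {k F : Type} [Field k] [Fintype k] [Field F] [IsAlgClosed F] (ι : k →+* F)
    {p f : ℕ} [Fact p.Prime] [CharP F p] (hk : Fintype.card k = p ^ f)
    {S : Type} [Fintype S] [DecidableEq S] {n : ℕ} (κ : S → ZMod f)
    (hκ : Function.Surjective κ) (t : Fˣ →* ℂˣ) (ht : Function.Injective t)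
    (s : Wt S (n + 1) → P S (n + 1)) (hs : IsWeyl s) (D : SerreWeights k F (n + 1) t)
    {T : Type} (θ : T → GL (Fin (n + 1)) k → ℂ) (mult : T → Wt S (n + 1) → D.W → ℕ)
    (hmult : ∀ τ, IsMult ι (p := p) κ t s D (θ τ) (mult τ))
    (N : ℕ) (hN0 : 0 < N) (hN : ∀ r, 1 ≤ r → r ≤ n + 1 → (p ^ f) ^ r - 1 ∣ N) :
    (∀ h, dimW s h * ∏ _σ : S, ∏ i : Fin (n + 1), ∏ j ∈ Ioi i, ((j.val : ℤ) - i.val) =
      ∏ σ, ∏ i : Fin (n + 1), ∏ j ∈ Ioi i, (h σ i - h σ j)) ∧
    (∀ τ, IsCentral ι t D p κ ((-1) ^ top S n * ((top S n).factorial * N ^ top S n)) (θ τ)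
      (fun h w => Diff (fun h => (mult τ h w : ℤ)) N (fun _ : Fin (top S n) => rhoS S n) h)) ∧
    ∀ (c : ℤ) (cen : T → Wt S (n + 1) → D.W → ℤ), c ≠ 0 →
      (∀ τ, IsCentral ι t D p κ c (θ τ) (cen τ)) →
      (∀ τ h h', Dom h → Dom h' → SameCentral p κ h h' → cen τ h = cen τ h') ∧
      (∀ τ w, DegreeLE N (low S n) (fun h => c * (mult τ h w : ℤ) - dimW s h * cen τ h w)) ∧
      (0 < n → ∀ τ w, HasDensity s N (fun h => (mult τ h w : ℝ)) (fun h => (cen τ h w : ℝ) / c)) ∧
      ∀ (M : Type) [AddCommGroup M] (Z : T → Wt S (n + 1) → M) (z : D.W → M),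
        (BM mult Z z → CycleTerm s N c cen Z z ∧ (n ≤ 1 → Exact s N c cen Z z) ∧
          (0 < n → ∀ (φ : M →+ ℝ) (τ : T), HasDensity s N (fun h => φ (Z τ h))
            (fun h => ∑ w, (cen τ h w : ℝ) / c * φ (z w)))) ∧
        ((∀ x : M, c • x = 0 → x = 0) → ∀ c' : ℕ,
          (BM mult Z z ↔ CycleTerm s N c cen Z z ∧ BMOn (Sample N (c' + 1) (low S n)) mult Z z) ∧
          (Sample N (c' + 1) (low S n) : Set (Wt S (n + 1))).Finite ∧
          ∀ h ∈ (Sample N (c' + 1) (low S n) : Set (Wt S (n + 1))), Dom h ∧ Deep (c' + 1) h) := by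
  obtain ⟨σ₀, -⟩ := hκ 0
  refine ⟨fun h => weyl_dim s hs h, fun τ => ?_, fun c cen hc hcen => ?_⟩
  · have h1 := cen_exists ι hk κ t ht s hs D hN σ₀ (θ τ) (mult τ) (hmult τ)
      (fun _ => rhoS S n) (fun _ σ a b hab => by
        simp only [rhoS, rho]
        have : a.val ≤ b.val := hab
        omega) 0
    rw [dim_lead s hs N 0] at h1
    simpa only [Diff, smul_eq_mul] using h1
  have hsame : ∀ τ h h', Dom h → Dom h' → SameCentral p κ h h' → cen τ h = cen τ h' := by
    intro τ h h' hh hh' hc'
    funext w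
    exact mul_left_cancel₀ hc
      (cen_unique ι hk κ t ht D (θ τ) c c (cen τ) (cen τ) (hcen τ) (hcen τ) h h' hh hh' hc' w)
  have hdens : 0 < n → ∀ τ w, HasDensity s N (fun h => (mult τ h w : ℝ))
      (fun h => (cen τ h w : ℝ) / c) := fun hn τ w h μ hh hμ =>
    density ι hk κ t ht s hs D hN hN0 σ₀ hn (θ τ) (mult τ) (hmult τ) c hc (cen τ) (hcen τ) h μ hh hμ w
  refine ⟨hsame, fun τ w μ h hI => ?_, hdens, fun M _ Z z => ?_⟩
  · have h1 := main_rel ι hk κ t ht s hs D hN (θ τ) (mult τ) (hmult τ) c (cen τ) (hcen τ)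
      (Nat.lt_succ_self (low S n)) μ h hI w
    simpa only [Diff, smul_eq_mul] using h1
  have hcyc : BM mult Z z → CycleTerm s N c cen Z z := fun hz τ μ h hI =>
    main_cycle ι hk κ t ht s hs D hN (θ τ) (mult τ) (hmult τ) c (cen τ) (hcen τ) (Z τ) z (hz τ)
      (Nat.lt_succ_self (low S n)) μ h hI
  refine ⟨fun hz => ⟨hcyc hz, fun hn τ h μ hh hh' => ?_, fun hn φ τ h μ hh hμ => ?_⟩,
    fun htor c' => ⟨⟨fun hz => ⟨hcyc hz, ?_⟩, ?_⟩, finite_sample N (c' + 1) (low S n), ?_⟩⟩
  · have hlow : low S n = 0 := by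
      rw [low]
      interval_cases n <;> simp
    have h1 : ∀ m, m = 0 → DegreeLE N m (fun h => c • Z τ h - dimW s h • ∑ w, cen τ h w • z w) →
        (c • Z τ (h + N • μ) - dimW s (h + N • μ) • ∑ w, cen τ (h + N • μ) w • z w) =
          (c • Z τ h - dimW s h • ∑ w, cen τ h w • z w) := by
      rintro m rfl hm
      have h2 := hm (fun _ => μ) h (fun I => by
        have h3 : I.card ≤ 1 := by
          have := Finset.card_le_univ I
          rwa [Fintype.card_fin] at this
        rw [Finset.sum_const]
        rcases Nat.le_one_iff_eq_zero_or_eq_one.mp h3 with h4 | h4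
        · rw [h4, zero_smul, smul_zero, add_zero]; exact hh
        · rw [h4, one_smul]; exact hh')
      have h3 := sum_card (m := 1) (fun k => (-1 : ℤ) ^ k • (c • Z τ (h + N • (k • μ)) -
        dimW s (h + N • (k • μ)) • ∑ w, cen τ (h + N • (k • μ)) w • z w))
      simp only [Diff, Finset.sum_const] at h2
      rw [h2, Finset.sum_range_succ, Finset.sum_range_one] at h3
      simp only [Nat.choose_zero_right, Nat.choose_self, one_smul, pow_zero, zero_smul, smul_zero,
        add_zero, pow_one, neg_smul] at h3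
      rw [eq_comm, ← sub_eq_add_neg, sub_eq_zero] at h3
      exact h3.symm
    have h2 := h1 _ hlow (hcyc hz τ)
    rw [← hsame τ h (h + N • μ) hh hh' (same_step κ hN h μ)] at h2
    rw [smul_sub, sub_smul, sub_eq_sub_iff_add_eq_add]
    rw [sub_eq_sub_iff_add_eq_add] at h2
    rw [h2, add_comm]
  · have h1 : ∀ i : ℕ, φ (Z τ (h + (i * N) • μ)) / (dimW s (h + (i * N) • μ) : ℝ) =
        ∑ w, (mult τ (h + (i * N) • μ) w : ℝ) / (dimW s (h + (i * N) • μ) : ℝ) * φ (z w) := by
      intro i
      have h2 : Z τ (h + (i * N) • μ) = ∑ w, mult τ (h + (i * N) • μ) w • z w :=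
        hz τ _ (dom_add_anti h hh μ (fun σ => (hμ σ).antitone) (i * N))
      rw [h2, map_sum, Finset.sum_div]
      refine Finset.sum_congr rfl fun w _ => ?_
      rw [map_nsmul, nsmul_eq_mul]
      ring
    simp only [h1]
    exact tendsto_finsetSum _ fun w _ => (hdens hn τ w h μ hh hμ).mul_const (φ (z w))
  · rintro τ h ⟨r, ν, hr, hν, _, rfl⟩
    exact hz τ _ ((dom_iff _).mpr ((sample_deep N hN0 c' r ν hr hν).mono (by omega)))
  · rintro ⟨h1, h2⟩ τ h hh
    have h3 := agree_all N hN0 (low S n) c'
      (fun h => c • Z τ h - dimW s h • ∑ w, cen τ h w • z w)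
      (fun h => c • (∑ w, mult τ h w • z w) - dimW s h • ∑ w, cen τ h w • z w) (h1 τ)
      (fun μ h hI => main_cycle ι hk κ t ht s hs D hN (θ τ) (mult τ) (hmult τ) c (cen τ) (hcen τ)
        (fun h => ∑ w, mult τ h w • z w) z (fun _ _ => rfl) (Nat.lt_succ_self (low S n)) μ h hI)
      (fun h hA => by
        have h4 : Z τ h = ∑ w, mult τ h w • z w := h2 τ h hA
        rw [h4]) h hh
    rw [sub_left_inj, ← sub_eq_zero, ← smul_sub] at h3
    exact sub_eq_zero.mp (htor _ h3)
  · rintro h ⟨r, ν, hr, hν, _, rfl⟩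
    have h1 := sample_deep N hN0 c' r ν hr hν
    exact ⟨(dom_iff _).mpr (h1.mono (by omega)), h1⟩

end Pool.Agent.Results.MP_4c60d4_nt.MainTerm
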