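import Pool.Agent.H87.Bm.Half

/-!
# The number of equations in the geometric Breuil-Mezard conjecture

`K / ℚ_p` finite with residue field `k` (`q = p ^ f` elements), `d = n + 1`, `S = Hom(K, E)`, so that
`Fintype.card S = [K : ℚ_p]`. We fix an embedding `ι` of `k` into an algebraically closed field `F` of
characteristic `p`; the embedding `σ ∈ S` induces the residue embedding `x ↦ ι(x) ^ (p ^ κ σ)`,
`κ : S → ℤ/f` surjective. `t : Fˣ → ℂˣ` is an injective homomorphism (Brauer lift).

From the library (`N28.BM`):
* `h : Wt S d` is a family of integers `h_{σ,i}`; `Dom h` says that it is a regular tuple of labelled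
  Hodge-Tate weights: `h_{σ,1} > ... > h_{σ,d}` for every `σ`.
* `Z h` (`h` regular) is the cycle of the special fibre of the stack of crystalline representations
  with Hodge-Tate weights `h`. `Z` is extended to all `h` as an alternating function (`Alt`): a
  permutation of the weights at one embedding changes the value by its sign, and `Z h = 0` if two
  weights at one embedding are equal.
* `s h` is the Weyl character of highest weight `h - ρ` (`IsWeyl`), `D : SerreWeights` are the
  irreducible representations of `GL_d(k)` with their Brauer characters, `mult h w = n_w(h)` is the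
  multiplicity of the Serre weight `w` in the reduction of the algebraic representation of highest
  weight `h - ρ` (`IsMult`, with the trivial type). `Generates`: the classes of these reductions
  generate the Grothendieck group (Steinberg).
* `shift Z h σ m r` is the sum of `Z` over all ways to add `m` to `r` of the weights at `σ`, and
  `inc h σ m univ` adds `m` to all the weights at `σ`.

New definitions:
* `IsBM t D mult Z`: there are `z_w` with `Z h = ∑ n_w(h) z_w` for all regular `h` (for the cycles of
  the special fibres this is Q1 for `K` and `d`).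
* `Inv V`: the Laurent polynomial `V` is invariant under the permutations of the variables at every
  embedding, i.e. it is the character of a virtual algebraic representation of the product over `S` of
  copies of `GL_d`. `tens V Z h = ∑_u V_u Z(h + u)`, the value at `h` of the tensor product of `Z` with
  `V`. The equation given by `V` is `tens V Z h = 0` for all regular `h`.
* `Valid t D mult V`: the equation given by `V` holds for all functions with `IsBM`, with values in any
  abelian group.
* `Twist κ p Z`: for regular `h`, adding `p` to all the weights at `σ` or `1` to all the weights at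
  `σ'` gives the same value, if the residue embedding of `σ'` is the Frobenius conjugate of the one of
  `σ`. The cycles have this property: twist by crystalline characters which are trivial modulo `p`.
* `dual h`: the Hodge-Tate weights `(-h_{σ,d}, ..., -h_{σ,1})` of the dual representation. The cycles
  satisfy `Z (dual h) = e (Z h)` with `e` the involution given by duality.
* `Describes t D mult N`: there are `N` virtual representations `V_j` such that for all abelian groups
  `M` and all alternating `Z` with values in `M`: `IsBM` holds if and only if `Z` satisfies the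
  equations given by the `V_j`. `DescribesWithTwist`: ... if and only if `Z` satisfies `Twist` and these
  equations. `DescribesSelfDual`: for all `Z` with `Twist` and with `Z (dual h) = e (Z h)` for some
  automorphism `e` of `M`, `IsBM` holds if and only if `Z` satisfies these equations.
* `PolyLines Q e Z`: for all `h`, `u` the function `i ↦ Z (h + i Q u)` of the integers is a polynomial
  of degree at most `e`. `QQ p f n = q ^ ⌊d / 2⌋ + 1`.
-/

namespace Pool.Agent.Results.MP_4c60d4_nt.NumberOfEquations

open Pool.Agent.N28.BM Pool.Agent.H87.Bm

/-- **The exact number of equations in the geometric Breuil-Mezard conjecture.** -/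
theorem result {k F : Type} [Field k] [Fintype k] [Field F] [IsAlgClosed F] (ι : k →+* F)
    {p f : ℕ} [Fact p.Prime] [CharP F p] (hk : Fintype.card k = p ^ f) (hf : f ≠ 0)
    {S : Type} [Fintype S] [DecidableEq S] {n : ℕ} (κ : S → ZMod f)
    (hκ : Function.Surjective κ) (t : Fˣ →* ℂˣ) (ht : Function.Injective t)
    (s : Wt S (n + 1) → P S (n + 1)) (hs : IsWeyl s) (D : SerreWeights k F (n + 1) t)
    (mult : Wt S (n + 1) → D.W → ℕ) (hmult : IsMult ι (p := p) κ t s D (fun _ => 1) mult)
    (hgen : Generates t D mult) :
    -- given twists and duality, `⌊d / 2⌋ [K : ℚ_p]` explicit equations suffice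
    (∀ sec : ZMod f → S, (∀ a, κ (sec a) = a) →
      ∀ (M : Type) [AddCommGroup M] (Z : Wt S (n + 1) → M), Alt Z → Twist κ p Z →
      (∃ e : M ≃+ M, ∀ h, Dom h → Z (dual h) = e (Z h)) →
      (IsBM t D mult Z ↔ ∀ h, Dom h → ∀ σ, ∀ r, 1 ≤ r → r ≤ (n + 1) / 2 →
        shift Z h (sec (κ σ - 1)) p r = shift Z h σ 1 r)) ∧
    -- the least numbers of equations: with twists and duality, with twists, without both
    IsLeast {N | DescribesSelfDual (p := p) κ t D mult N} (Fintype.card S * ((n + 1) / 2)) ∧
    IsLeast {N | DescribesWithTwist (p := p) κ t D mult N} (Fintype.card S * n) ∧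
    IsLeast {N | Describes t D mult N} (Fintype.card S * (n + 1)) ∧
    -- fewer equations: a self-dual effective function, close to one of Breuil-Mezard type
    (∀ (N : ℕ) (V : Fin N → P S (n + 1)), (∀ j, Inv (V j)) → (∀ j, Valid t D mult (V j)) →
      N < Fintype.card S * ((n + 1) / 2) →
      ∃ Z : Wt S (n + 1) → ℤ, (∀ h, Z (dual h) = Z h) ∧ Alt Z ∧
        (∀ j h, Dom h → tens (V j) Z h = 0) ∧ Twist κ p Z ∧
        (∀ h, Dom h → 1 ≤ Z h) ∧
        PolyLines (QQ p f n) (Fintype.card S * ((n + 1) * n / 2)) Z ∧
        (∃ (z : D.W → ℤ) (C : ℤ), ∀ h, Dom h → |Z h - ∑ w, mult h w • z w| ≤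
          C * ∑ σ, (h σ 0 - h σ (Fin.last n))) ∧
        ¬ IsBM t D mult Z) ∧
    -- the same without duality
    (∀ (N : ℕ) (V : Fin N → P S (n + 1)), (∀ j, Inv (V j)) → (∀ j, Valid t D mult (V j)) →
      N < Fintype.card S * n →
      ∃ Z : Wt S (n + 1) → ℤ, Alt Z ∧ (∀ j h, Dom h → tens (V j) Z h = 0) ∧ Twist κ p Z ∧
        (∀ h, Dom h → 1 ≤ Z h) ∧
        PolyLines (QQ p f n) (Fintype.card S * ((n + 1) * n / 2)) Z ∧
        (∃ (z : D.W → ℤ) (C : ℤ), ∀ h, Dom h → |Z h - ∑ w, mult h w • z w| ≤
          C * ∑ σ, (h σ 0 - h σ (Fin.last n))) ∧
        ¬ IsBM t D mult Z) :=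
  ⟨fun sec hsec _ _ Z hZ hT hD =>
      half_equations ι hk hf κ hκ t ht s hs D mult hmult hgen sec hsec Z hZ hT hD,
    leastSelfDual ι hk hf κ hκ t ht s hs D mult hmult hgen,
    leastWithTwist ι hk hf κ hκ t ht s hs D mult hmult hgen,
    least ι hk hf κ hκ t ht s hs D mult hmult hgen,
    fun _ V hV hval hN => lower_dual ι hk hf κ hκ t ht s hs D mult hmult hgen V hV hval hN,
    fun _ V hV hval hN => lower_eff ι hk hf κ hκ t ht s hs D mult hmult hgen V hV hval hN⟩

end Pool.Agent.Results.MP_4c60d4_nt.NumberOfEquations
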