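import Pool.Agent.H50.PS.Crit
import Pool.Agent.H50.PS.Char
import Pool.Agent.H50.PS.Twist

/-!
# The geometric Breuil-Mezard conjecture: principal series types, semistable and crystalline cycles

`K / ℚ_p` finite with residue field `k` (`q = p ^ f` elements), `d = n + 1`, `S = Hom(K, E)`. We fix an
embedding `ι` of `k` into an algebraically closed field `F` of characteristic `p`; the embedding
`σ ∈ S` induces the residue embedding `x ↦ ι(x) ^ (p ^ κ σ)`. `t : Fˣ → ℂˣ` is an injective
homomorphism (Brauer lift).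

* `Wt S d`: families of integers `h_{σ,i}`; `Dom h`: a regular tuple of labelled Hodge-Tate weights
  (`h_{σ,1} > ... > h_{σ,d}` for every `σ`). `rhoS S n`: the weights `n, n - 1, ..., 0` at every
  embedding (Hodge type zero; for `d = 2` this is the potentially Barsotti-Tate case).
* For `j : S → ℕ` and a permutation `e` of `S`, `msc p j h` are the weights `p ^ j_σ h_σ` (at `σ`), and
  `msc p j (ren e h)` the weights `p ^ j_σ h_{e(σ)}`.
* `Compatible κ j e`: for every `σ` the residue embedding of `e(σ)` is the residue embedding of `σ`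
  followed by the `j_σ`-th power of the Frobenius. Examples: `e = 1`, `j_σ = f` for one `σ`, and `0` for
  the others (then the weights `p ^ j_σ h_{e(σ)}` are `sc (p ^ f) σ h`: the weights at `σ` are multiplied
  by `q`); `K` unramified, `j = 1` everywhere, `e` the Frobenius.
* `Preserves κ j e`: the permutation `e` preserves the function `κ + j`. Example: `j_σ = a` and `0` at
  the other embeddings, `e` the transposition of `σ` and an embedding `σ'` whose residue embedding is
  the one of `σ` followed by the `a`-th power of the Frobenius.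
* `s h`: the Weyl character of the algebraic representation `W_h` of highest weight `h - ρ`; its
  coefficient `(s h).coeff ν` is the multiplicity of the weight `ν` in `W_h`. `D`: the Serre
  weights with their Brauer characters.
* `T`: the (tame) types, i.e. irreducible representations `σ(τ)` of `GL_d(k)`; `θ τ` is the Brauer
  character of the reduction of `σ(τ)`. For `σ(τ) = 1` this is the crystalline case, for
  `σ(τ) = St` the semistable case. `mult τ h w` is the multiplicity of the Serre weight `w` in the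
  reduction of `W_h ⊗ σ(τ)` (`IsMult`; for `θ τ = 1` this is `n_w(h)`).
* `Z τ h`: the cycle of the special fibre attached to the type `τ` and the Hodge-Tate weights `h`, in
  the group `M` of cycles of the reduced stack; the identity of the conjecture at `τ, h` for the
  cycles `z w` is `Z τ h = ∑ w, mult τ h w • z w`.
* `χ = (χ_1, ..., χ_d)`: a character of the group `B` of upper triangular matrices in `GL_d(k)`,
  `ps χ` the character of the induced representation `PS(χ)`, `brps χ` the Brauer character of its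
  reduction, `a χ τ` the multiplicity of `σ(τ)` in `PS(χ)`, `ZPS a Z χ h = ∑ τ, a χ τ • Z τ h` the
  cycle of `PS(χ)` and `h`. `tw ι t p κ χ ν` is the character `χ` twisted by the weight `ν`.
* `weightSum .. Y χ h` is the sum over the weights `ν` of `W_h`, with their multiplicities, of the
  values of `Y` at the characters `χ` twisted by `ν`.
* `IsProduct .. j (θ τ) (θ τ')`: `σ(τ')` and `σ(τ) ⊗ W_{p ^ j ρ}` have the same reduction. By a theorem
  of Steinberg the restriction of `W_{p ^ j ρ}` to `GL_d(k)` is the Steinberg representation `St` if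
  `j` is `f` at one embedding and `0` at the others, and also if `j` is `1` at embeddings which
  induce every residue embedding once and `0` at the others.

**Theorem.** Part 1 (all `d`). (1) `n_w(PS(χ), h) = ∑_ν m_h(ν) n_w(PS(χ ν), ρ)`.

(2) If `(j, e)` is compatible, then `n_w(τ ⊗ W_{p ^ j ρ}, h) = n_w(τ, p ^ j h_e)`. If `e` preserves `κ + j`,
then `n_w(τ, p ^ j h_e) = n_w(τ, p ^ j h)` (exchange relations: in the example, the weights `p ^ a u` at
`σ` and `v` at `σ'` can be replaced by `p ^ a v` and `u`).

(3) If the conjecture holds then `Z(PS(χ), h) = ∑_ν m_h(ν) Z(PS(χ ν), ρ)`,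
`Z(τ ⊗ W_{p ^ j ρ}, h) = Z(τ, p ^ j h_e)` for compatible `(j, e)`, and `Z(τ, p ^ j h_e) = Z(τ, p ^ j h)` if `e`
preserves `κ + j`. In particular the semistable cycle of the weights `h` is the crystalline cycle of
the weights `h` multiplied by `q` at one embedding; for `K` unramified also of the weights `p h_{φ σ}`.

(4) Suppose that the inequality `≥` of the conjecture is known (this is the result of patching), and
the conjecture for Hodge type zero and the constituents of the principal series. Then for every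
`χ` and `h` the conjecture holds at `h` for all constituents of `PS(χ)` (for `χ = 1` these contain
the crystalline and the semistable case) if and only if
`Z(PS(χ), h) ≤ ∑_ν m_h(ν) Z(PS(χ ν), ρ)`: an upper bound by cycles of Hodge type zero.

(5) If the inequality `≥` and the conjecture for `τ` and `p ^ j h_e` are known, then the
conjecture for `τ ⊗ W_{p ^ j ρ}` and `h` is equivalent to `Z(τ ⊗ W_{p ^ j ρ}, h) ≤ Z(τ, p ^ j h_e)`. The
same for `(τ, p ^ j h)` and `(τ, p ^ j h_e)` if `e` preserves `κ + j`.

Part 2 (`d = 2`, only crystalline cycles). `h'` are the weights `h` multiplied by `q` at one embedding.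
`PS(1) = 1 + St`, and `n_w(h')` does not depend on the embedding. We have
`n_w(h) + n_w(h') = ∑_ν m_h(ν) n_w(PS(ν), ρ)`. If the inequality `≥` is known
for `h` and `h'`, the identities of Q1 for `h` and `h'` are equivalent to the inequality
`Z(h) + Z(h') ≤ ∑_ν m_h(ν) R(PS(ν))`, where `R(PS(χ)) = ∑_w n_w(PS(χ), ρ) z_w` are the cycles of the
potentially Barsotti-Tate stacks, which are known.
-/

set_option autoImplicit false

open Finset

namespace Pool.Agent.Results.MP_4c60d4_nt.PrincipalSeries

open Pool.Agent.N28.BM Pool.Agent.H50.PS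

section Statements

variable {k F : Type} [Field k] [Field F] (ι : k →+* F) (p : ℕ) {f : ℕ}
  {S T W M : Type} [Fintype S] [DecidableEq S] [Fintype T] [Fintype W] [AddCommGroup M] {n : ℕ}
  (κ : S → ZMod f) (t : Fˣ →* ℂˣ) (s : Wt S (n + 1) → P S (n + 1))

/-- For every embedding `σ` the residue embedding of `e(σ)` is the composition of the residue
embedding of `σ` with the `j σ`-th power of the Frobenius. -/
def Compatible (j : S → ℕ) (e : Equiv.Perm S) : Prop := ∀ σ, κ (e σ) = κ σ + (j σ : ZMod f)

/-- The permutation `e` of the embeddings preserves the function `κ + j`. -/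
def Preserves (j : S → ℕ) (e : Equiv.Perm S) : Prop :=
  ∀ σ, κ (e σ) + (j (e σ) : ZMod f) = κ σ + (j σ : ZMod f)

/-- The sum over the weights `ν` of `W_h`, with their multiplicities, of the values of `Y` at the
characters `χ` twisted by `ν`. -/
noncomputable def weightSum (Y : (Fin (n + 1) → (kˣ →* ℂˣ)) → M)
    (χ : Fin (n + 1) → (kˣ →* ℂˣ)) (h : Wt S (n + 1)) : M :=
  ∑ ν ∈ (s h).coeff.support, (s h).coeff ν • Y (tw ι t p κ χ ν)

/-- `θ'` is the product of `θ` with the Brauer character of the restriction to `GL_d(k)` of the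
algebraic representation `W_{p ^ j ρ}`. -/
def IsProduct (j : S → ℕ) (θ θ' : GL (Fin (n + 1)) k → ℂ) : Prop :=
  ∀ (g : GL (Fin (n + 1)) k) (x : Fin (n + 1) → Fˣ), IsEigen ι g x →
    θ' g = evx (pnt κ p t x) (s (msc p j (rhoS S n))) * θ g

/-- The identity of the conjecture for the type `τ` and the weights `h`, with the cycles `z w`. -/
def IdentityAt (mult : T → Wt S (n + 1) → W → ℕ) (Z : T → Wt S (n + 1) → M) (z : W → M) (τ : T)
    (h : Wt S (n + 1)) : Prop := Z τ h = ∑ w, mult τ h w • z w

/-- The conjecture for the types `τ ∈ T`, with the cycles `z w`. -/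
def BM (mult : T → Wt S (n + 1) → W → ℕ) (Z : T → Wt S (n + 1) → M) (z : W → M) : Prop :=
  ∀ τ h, Dom h → IdentityAt mult Z z τ h

/-- The inequality of the conjecture which is known by patching. -/
def LowerBound [PartialOrder M] (mult : T → Wt S (n + 1) → W → ℕ) (Z : T → Wt S (n + 1) → M)
    (z : W → M) : Prop := ∀ τ h, Dom h → ∑ w, mult τ h w • z w ≤ Z τ h

/-- The conjecture for Hodge type zero and the constituents of the principal series. -/
def HodgeTypeZero (a : (Fin (n + 1) → (kˣ →* ℂˣ)) → T → ℕ) (mult : T → Wt S (n + 1) → W → ℕ)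
    (Z : T → Wt S (n + 1) → M) (z : W → M) : Prop :=
  ∀ χ τ, a χ τ ≠ 0 → IdentityAt mult Z z τ (rhoS S n)

end Statements

/-- **Principal series types; semistable and crystalline cycles.** -/
theorem result {k F : Type} [Field k] [Fintype k] [Field F] [IsAlgClosed F] (ι : k →+* F)
    {p f : ℕ} [Fact p.Prime] [CharP F p] (hk : Fintype.card k = p ^ f)
    {S : Type} [Fintype S] [DecidableEq S] (κ : S → ZMod f)
    (t : Fˣ →* ℂˣ) (ht : Function.Injective t) :
    (∀ (n : ℕ) (s : Wt S (n + 1) → P S (n + 1)), IsWeyl s →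
      ∀ (D : SerreWeights k F (n + 1) t) (T : Type) [Fintype T]
        (θ : T → GL (Fin (n + 1)) k → ℂ) (mult : T → Wt S (n + 1) → D.W → ℕ),
      (∀ τ, IsMult ι (p := p) κ t s D (θ τ) (mult τ)) →
      ∀ (a : (Fin (n + 1) → (kˣ →* ℂˣ)) → T → ℕ),
      (∀ χ g, brps χ g = ∑ τ, (a χ τ : ℂ) * θ τ g) →
      (∀ χ h, Dom h → ∀ w, ∑ τ, (a χ τ : ℤ) * mult τ h w =
        weightSum ι p κ t s (fun χ' => ∑ τ, (a χ' τ : ℤ) * mult τ (rhoS S n) w) χ h) ∧
      (∀ τ τ' j e, Compatible κ j e → IsProduct ι p κ t s j (θ τ) (θ τ') → ∀ h, Dom h → ∀ w,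
        mult τ' h w = mult τ (msc p j (ren e h)) w) ∧
      (∀ τ j e, Preserves κ j e → ∀ h, Dom h → ∀ w,
        mult τ (msc p j (ren e h)) w = mult τ (msc p j h) w) ∧
      ∀ (M : Type) [AddCommGroup M] (Z : T → Wt S (n + 1) → M) (z : D.W → M),
        (BM mult Z z →
          (∀ χ h, Dom h → ZPS a Z χ h =
            weightSum ι p κ t s (fun χ' => ZPS a Z χ' (rhoS S n)) χ h) ∧
          (∀ τ τ' j e, Compatible κ j e → IsProduct ι p κ t s j (θ τ) (θ τ') → ∀ h, Dom h →
            Z τ' h = Z τ (msc p j (ren e h))) ∧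
          ∀ τ j e, Preserves κ j e → ∀ h, Dom h →
            Z τ (msc p j (ren e h)) = Z τ (msc p j h)) ∧
        ∀ [PartialOrder M] [IsOrderedAddMonoid M], LowerBound mult Z z →
          (HodgeTypeZero a mult Z z → ∀ χ h, Dom h →
            ((∀ τ, a χ τ ≠ 0 → IdentityAt mult Z z τ h) ↔
              ZPS a Z χ h ≤ weightSum ι p κ t s (fun χ' => ZPS a Z χ' (rhoS S n)) χ h)) ∧
          (∀ τ τ' j e, Compatible κ j e → IsProduct ι p κ t s j (θ τ) (θ τ') → ∀ h, Dom h →
            IdentityAt mult Z z τ (msc p j (ren e h)) →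
            (IdentityAt mult Z z τ' h ↔ Z τ' h ≤ Z τ (msc p j (ren e h)))) ∧
          ∀ τ j e, Preserves κ j e → ∀ h, Dom h → IdentityAt mult Z z τ (msc p j h) →
            (IdentityAt mult Z z τ (msc p j (ren e h)) ↔
              Z τ (msc p j (ren e h)) ≤ Z τ (msc p j h))) ∧
    ∀ (s : Wt S 2 → P S 2), IsWeyl (n := 1) s → ∀ (D : SerreWeights k F 2 t)
      (mult : Wt S 2 → D.W → ℕ), IsMult (n := 1) ι (p := p) κ t s D (fun _ => 1) mult →
      (∀ σ (g : GL (Fin 2) k) (x : Fin 2 → Fˣ), IsEigen ι g x →
        brps (n := 1) 1 g = 1 + evx (pnt κ p t x) (s (sc (p ^ f) σ (rhoS S 1)))) ∧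
      (∀ σ σ' h, Dom h → ∀ w, mult (sc (p ^ f) σ h) w = mult (sc (p ^ f) σ' h) w) ∧
      ∀ (m : (Fin 2 → (kˣ →* ℂˣ)) → D.W → ℕ),
      (∀ χ g, ∑ w, (m χ w : ℂ) * D.br w g = brps (n := 1) χ g) → ∀ σ h, Dom h →
      (∀ w, (mult h w : ℤ) + mult (sc (p ^ f) σ h) w =
        weightSum (n := 1) ι p κ t s (fun χ => (m χ w : ℤ)) 1 h) ∧
      ∀ (M : Type) [AddCommGroup M] [PartialOrder M] [IsOrderedAddMonoid M] (Z : Wt S 2 → M)
        (z : D.W → M), ∑ w, mult h w • z w ≤ Z h →
        ∑ w, mult (sc (p ^ f) σ h) w • z w ≤ Z (sc (p ^ f) σ h) →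
        ((Z h = ∑ w, mult h w • z w ∧
            Z (sc (p ^ f) σ h) = ∑ w, mult (sc (p ^ f) σ h) w • z w) ↔
          Z h + Z (sc (p ^ f) σ h) ≤
            weightSum (n := 1) ι p κ t s (fun χ => ∑ w, m χ w • z w) 1 h) := by
  refine ⟨fun n s hs D T _ θ mult hmult a ha => ⟨fun χ h hh w => ?_, fun τ τ' j e he hθ h hh w => ?_,
    fun τ j e he h hh w => ?_, fun M _ Z z => ⟨fun hz => ⟨fun χ h hh => ?_,
      fun τ τ' j e he hθ h hh => ?_, fun τ j e he h hh => ?_⟩, ?_⟩⟩, ?_⟩
  · exact mult_ps ι κ t s hs D θ mult hmult a ha χ h hh w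
  · exact mult_msc ι hk κ t s hs D j e he (θ τ) (θ τ') (mult τ) (mult τ') (hmult τ) (hmult τ') hθ
      h hh w
  · exact mult_exchange ι hk κ t s hs D j e he (θ τ) (mult τ) (hmult τ) h hh w
  · have h1 := crit ι κ t s hs D θ mult hmult a ha Z z
      (fun _ τ _ => hz τ _ (dom_rhoS S n)) χ h hh
    have h2 := zps_congr a (fun τ h => ∑ w, mult τ h w • z w) Z χ h (fun τ _ => hz τ h hh)
    exact h2.trans h1
  · have hd : Dom (msc p j (ren e h)) := msc_dom (Fact.out : p.Prime).pos j _ (fun σ => hh (e σ))
    rw [hz τ' h hh, hz τ _ hd]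
    refine Finset.sum_congr rfl fun w _ => ?_
    rw [mult_msc ι hk κ t s hs D j e he (θ τ) (θ τ') (mult τ) (mult τ') (hmult τ) (hmult τ') hθ
      h hh w]
  · have hd : Dom (msc p j (ren e h)) := msc_dom (Fact.out : p.Prime).pos j _ (fun σ => hh (e σ))
    have hd' : Dom (msc p j h) := msc_dom (Fact.out : p.Prime).pos j _ hh
    rw [hz τ _ hd, hz τ _ hd']
    refine Finset.sum_congr rfl fun w _ => ?_
    rw [mult_exchange ι hk κ t s hs D j e he (θ τ) (mult τ) (hmult τ) h hh w]
  · intro _ _ hlow
    refine ⟨fun h0 χ h hh => crit_le ι κ t s hs D θ mult hmult a ha Z z h0 hlow χ h hh,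
      fun τ τ' j e he hθ h hh h1 => ?_, fun τ j e he h hh h1 => ?_⟩
    · have h2 : ∑ w, mult τ' h w • z w = Z τ (msc p j (ren e h)) := by
        rw [h1]
        refine Finset.sum_congr rfl fun w _ => ?_
        rw [mult_msc ι hk κ t s hs D j e he (θ τ) (θ τ') (mult τ) (mult τ') (hmult τ) (hmult τ')
          hθ h hh w]
      unfold IdentityAt
      rw [h2]
      exact ⟨fun h3 => h3.le, fun h3 => le_antisymm h3 (h2 ▸ hlow τ' h hh)⟩
    · have h2 : ∑ w, mult τ (msc p j (ren e h)) w • z w = Z τ (msc p j h) := by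
        rw [h1]
        refine Finset.sum_congr rfl fun w _ => ?_
        rw [mult_exchange ι hk κ t s hs D j e he (θ τ) (mult τ) (hmult τ) h hh w]
      have hd' : Dom (msc p j (ren e h)) :=
        msc_dom (Fact.out : p.Prime).pos j _ (fun σ => hh (e σ))
      unfold IdentityAt
      rw [h2]
      exact ⟨fun h3 => h3.le, fun h3 => le_antisymm h3 (h2 ▸ hlow τ _ hd')⟩
  · intro s hs D mult hmult
    have htriv : ∀ σ (g : GL (Fin 2) k) (x : Fin 2 → Fˣ), IsEigen ι g x →
        brps (n := 1) 1 g = 1 + evx (pnt κ p t x) (s (sc (p ^ f) σ (rhoS S 1))) := by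
      intro σ g x hx
      exact brps_trivial ι hk κ t ht s hs σ g x hx
    have hdom : ∀ σ h, Dom h → Dom (sc ((p : ℤ) ^ f) σ h : Wt S 2) := by
      intro σ h hh
      have := (Fact.out : p.Prime).pos
      exact sc_dom (by positivity) σ h hh
    refine ⟨htriv, fun σ σ' h hh w => ?_, fun m hm σ h hh => ?_⟩
    · have h1 : ∑ w, ((mult (sc (p ^ f) σ h) w : ℤ) - mult (sc (p ^ f) σ' h) w) • D.br w = 0 := by
        funext g
        obtain ⟨x, hx⟩ := list_eigen (n := 1) ι g
        have h2 := hmult _ (hdom σ h hh) g x hx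
        have h3 := hmult _ (hdom σ' h hh) g x hx
        rw [ev_sc (n := 1) ι hk κ t s hs σ h g x hx] at h2
        rw [ev_sc (n := 1) ι hk κ t s hs σ' h g x hx] at h3
        have h4 : evx (pnt κ p t x) (s (sc (p ^ f) σ (rhoS S 1))) =
            evx (pnt κ p t x) (s (sc (p ^ f) σ' (rhoS S 1))) :=
          add_left_cancel ((htriv σ g x hx).symm.trans (htriv σ' g x hx))
        have h5 : evx (pnt κ p t x) (s (sc (p ^ f) σ fun _ => rho 1)) =
            evx (pnt κ p t x) (s (sc (p ^ f) σ' fun _ => rho 1)) := h4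
        rw [h5, ← h3] at h2
        rw [Finset.sum_apply, Pi.zero_apply]
        simp only [Pi.smul_apply, zsmul_eq_mul, Int.cast_sub, Int.cast_natCast, sub_mul,
          Finset.sum_sub_distrib]
        rw [h2, sub_self]
      have h2 := Fintype.linearIndependent_iff.mp D.indep _ h1 w
      have h3 : (mult (sc (p ^ f) σ h) w : ℤ) = mult (sc (p ^ f) σ' h) w := by linarith
      exact_mod_cast h3
    · have hmul : ∀ w, (mult h w : ℤ) + mult (sc (p ^ f) σ h) w =
          weightSum (n := 1) ι p κ t s (fun χ => (m χ w : ℤ)) 1 h := by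
        have h1 : ∑ w, (((mult h w : ℤ) + mult (sc (p ^ f) σ h) w) -
            weightSum (n := 1) ι p κ t s (fun χ => (m χ w : ℤ)) 1 h) • D.br w = 0 := by
          funext g
          obtain ⟨x, hx⟩ := list_eigen (n := 1) ι g
          have h2 := hmult _ hh g x hx
          have h3 := hmult _ (hdom σ h hh) g x hx
          rw [ev_sc (n := 1) ι hk κ t s hs σ h g x hx] at h3
          have h4 := ps_mul (n := 1) ι κ t s hs 1 h g x hx (p := p)
          rw [htriv σ g x hx] at h4
          have h5 : ∑ w, (((weightSum (n := 1) ι p κ t s (fun χ => (m χ w : ℤ)) 1 h : ℤ)) : ℂ) *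
              D.br w g = ∑ ν ∈ (s h).coeff.support, ((s h).coeff ν : ℂ) *
                brps (n := 1) (tw ι t p κ 1 ν) g := by
            unfold weightSum
            simp only [← hm, Finset.mul_sum, Int.cast_sum, Finset.sum_mul]
            rw [Finset.sum_comm]
            refine Finset.sum_congr rfl fun ν _ => Finset.sum_congr rfl fun w _ => ?_
            rw [smul_eq_mul]
            push_cast
            ring
          rw [Finset.sum_apply, Pi.zero_apply]
          simp only [Pi.smul_apply, zsmul_eq_mul, Int.cast_sub, Int.cast_add, Int.cast_natCast,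
            sub_mul, add_mul, Finset.sum_sub_distrib, Finset.sum_add_distrib]
          rw [h5, ← h4, h2, h3]
          have h6 : evx (pnt κ p t x) (s (sc ((p : ℤ) ^ f) σ fun _ => rho 1)) =
            evx (pnt κ p t x) (s (sc ((p : ℤ) ^ f) σ (rhoS S 1))) := rfl
          rw [h6]
          ring
        intro w
        have h2 := Fintype.linearIndependent_iff.mp D.indep _ h1 w
        linarith
      refine ⟨hmul, fun M _ _ _ Z z hl hl' => ?_⟩
      have hsum : weightSum (n := 1) ι p κ t s (fun χ => ∑ w, m χ w • z w) 1 h =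
          ∑ w, mult h w • z w + ∑ w, mult (sc (p ^ f) σ h) w • z w := by
        rw [← Finset.sum_add_distrib]
        have h1 : ∀ w, mult h w • z w + mult (sc (p ^ f) σ h) w • z w =
            weightSum (n := 1) ι p κ t s (fun χ => (m χ w : ℤ)) 1 h • z w := by
          intro w
          rw [← hmul w, add_smul, natCast_zsmul, natCast_zsmul]
        simp only [h1]
        unfold weightSum
        simp only [Finset.sum_smul, Finset.smul_sum]
        rw [Finset.sum_comm]
        refine Finset.sum_congr rfl fun w _ => Finset.sum_congr rfl fun ν _ => ?_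
        rw [smul_assoc, natCast_zsmul]
      rw [hsum]
      constructor
      · rintro ⟨h1, h2⟩
        rw [← h1, ← h2]
      · intro h1
        have h2 : Z h ≤ ∑ w, mult h w • z w := by
          have h3 := h1.trans (add_le_add_right hl' (∑ w, mult h w • z w))
          exact le_of_add_le_add_right h3
        have h3 : Z (sc (p ^ f) σ h) ≤ ∑ w, mult (sc (p ^ f) σ h) w • z w := by
          have h4 := h1.trans (add_le_add_left hl (∑ w, mult (sc (p ^ f) σ h) w • z w))
          exact le_of_add_le_add_left h4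
        exact ⟨le_antisymm h2 hl, le_antisymm h3 hl'⟩

end Pool.Agent.Results.MP_4c60d4_nt.PrincipalSeries
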